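import Pool.Agent.H46.Fm3

namespace Pool.Agent.Results.MP_582e6d_pr.MotherFirst

open Pool.Agent.H46.Fm

/-- For every `N ≥ 1` and all win probabilities with `0 < b ≤ a < 1`, `0 < c ≤ 1/2` (in particular
under the strength convention `a, b, c < 1/2`, `b ≤ a`), playing the mother first is optimal for
the father in the first-to-`N` tournament. -/
theorem result (N : ℕ) (hN : 1 ≤ N) (a b c : ℝ) (hb : 0 < b) (hba : b ≤ a) (ha : a < 1)
    (hc : 0 < c) (hc2 : c ≤ 1 / 2) :
    P N Pairing.FS a b c ≤ P N Pairing.FM a b c ∧ P N Pairing.MS a b c ≤ P N Pairing.FM a b c :=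
  ⟨FM_ge_FS ha hb hba hc hc2 N hN, FM_ge_MS ha hb hba hc hc2 N hN⟩

end Pool.Agent.Results.MP_582e6d_pr.MotherFirst
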